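import Mathlib
import Pool.Agent.Y944.LC.TA
import Pool.Agent.Y944.LC.TB

/-!
# Leopoldt's conjecture and the congruence topology on the units
-/

set_option autoImplicit false
set_option linter.unusedSectionVars false

namespace Pool.Agent.R362.LM

open Finset NumberField NumberField.Units Filter Topology Pool.Agent.H637R2.Leo Pool.Agent.Y944.LC

section

variable (E : Type) [Field E] [NumberField E]

/-- units whose exponents are divisible by `p ^ n`: the `p ^ n`-th powers up to roots of unity -/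
def Pw (p n : ℕ) : Subgroup (𝓞 E)ˣ where
  carrier := {u | ∀ j, (p : ℤ) ^ n ∣ ex E u j}
  one_mem' := fun j => by rw [ex_one]; exact dvd_zero _
  mul_mem' := fun ha hb j => by rw [ex_mul]; exact dvd_add (ha j) (hb j)
  inv_mem' := fun {a} ha j => by
    rw [← zpow_neg_one, ex_zpow]
    exact Dvd.dvd.mul_left (ha j) _

/-- units congruent to `1` modulo `p ^ M` -/
def Cl (p M : ℕ) : Subgroup (𝓞 E)ˣ :=
  (Units.map (Ideal.Quotient.mk (Ideal.span {(p : 𝓞 E) ^ M})).toMonoidHom).ker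

variable {E}

lemma mem_Pw {p n : ℕ} {u : (𝓞 E)ˣ} : u ∈ Pw E p n ↔ ∀ j, (p : ℤ) ^ n ∣ ex E u j := Iff.rfl

lemma mem_Cl {p M : ℕ} {u : (𝓞 E)ˣ} : u ∈ Cl E p M ↔ (p : 𝓞 E) ^ M ∣ ((u : 𝓞 E) - 1) := by
  unfold Cl
  rw [MonoidHom.mem_ker, ← Ideal.mem_span_singleton, ← Ideal.Quotient.eq_zero_iff_mem, map_sub,
    map_one, sub_eq_zero, ← Units.val_inj]
  rfl

lemma Cl_anti {p M M' : ℕ} (h : M ≤ M') : Cl E p M' ≤ Cl E p M := fun u hu => by
  rw [mem_Cl] at hu ⊢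
  exact (pow_dvd_pow _ h).trans hu

lemma mem_Pw_iff {p n : ℕ} {u : (𝓞 E)ˣ} :
    u ∈ Pw E p n ↔ ∃ ζ ∈ torsion E, ∃ w : (𝓞 E)ˣ, u = ζ * w ^ p ^ n := by
  constructor
  · intro h
    choose d hd using h
    refine ⟨tp E u, (tp E u).2, ∏ i, fundSystem E i ^ d i, ?_⟩
    conv_lhs => rw [ex_spec E u]
    congr 1
    rw [← Finset.prod_pow]
    refine Finset.prod_congr rfl fun i _ => ?_
    rw [hd i, ← zpow_natCast, ← zpow_mul, mul_comm]
    push_cast
    rfl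
  · rintro ⟨ζ, hζ, w, rfl⟩ j
    rw [ex_mul, ex_pow, (ex_eq_zero_iff E ζ).mpr hζ j, zero_add]
    push_cast
    exact dvd_mul_right _ _

lemma tors_le_Pw {p n : ℕ} {u : (𝓞 E)ˣ} (hu : u ∈ torsion E) : u ∈ Pw E p n := fun j => by
  rw [(ex_eq_zero_iff E u).mpr hu j]
  exact dvd_zero _

lemma exists_div (p : ℕ) (hp : p.Prime) (m : ℤ) (hm : m ≠ 0) :
    ∃ c : ℕ, ∀ (n : ℕ) (x : ℤ), (p : ℤ) ^ (n + c) ∣ m * x → (p : ℤ) ^ n ∣ x := by
  obtain ⟨c, m', hm', hmm⟩ := Nat.exists_eq_pow_mul_and_not_dvd (Int.natAbs_ne_zero.mpr hm) p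
    hp.ne_one
  refine ⟨c, fun n x hx => ?_⟩
  rw [← Int.natAbs_dvd_natAbs, Int.natAbs_pow, Int.natAbs_natCast, Int.natAbs_mul, hmm, pow_add,
    mul_comm (p ^ n), mul_assoc] at hx
  have h1 := Nat.dvd_of_mul_dvd_mul_left (pow_pos hp.pos c) hx
  have h2 : Nat.Coprime (p ^ n) m' := Nat.Coprime.pow_left _ ((Nat.Prime.coprime_iff_not_dvd hp).mpr hm')
  have h3 := h2.dvd_of_dvd_mul_left h1
  rw [← Int.natAbs_dvd_natAbs, Int.natAbs_pow, Int.natAbs_natCast]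
  exact h3

/-- The congruence form of Leopoldt's conjecture. -/
theorem leo_iff (p : ℕ) [Fact p.Prime] : Leopoldt E p ↔ ∀ n, ∃ M, Cl E p M ≤ Pw E p n := by
  have hp : p.Prime := Fact.out
  constructor
  · intro hleo n
    by_contra hcon
    push Not at hcon
    simp only [SetLike.not_le_iff_exists] at hcon
    choose u hu1 hu2 using hcon
    obtain ⟨t0, ht0, ht0w⟩ := exists_t0 E p hp
    set t : ℕ := t0 * torsionOrder E with ht
    have htpos : 0 < t := Nat.mul_pos ht0 (torsionOrder_pos E)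
    set η : Fin (rank E) → (𝓞 E)ˣ := fun i => fundSystem E i ^ t with hη
    obtain ⟨a, φ, hφ, hlim⟩ := CompactSpace.tendsto_subseq
      (fun M : ℕ => fun i : Fin (rank E) => ((ex E (u M) i : ℤ) : ℤ_[p]))
    have hx : ∀ M, u M ^ t = ∏ i, η i ^ ex E (u M) i := by
      intro M
      have h1 : ∏ i, η i ^ ex E (u M) i = (∏ i, fundSystem E i ^ ex E (u M) i) ^ t := by
        rw [← Finset.prod_pow]
        refine Finset.prod_congr rfl fun i _ => ?_
        show (fundSystem E i ^ t) ^ ex E (u M) i = (fundSystem E i ^ ex E (u M) i) ^ t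
        rw [← zpow_natCast, ← zpow_natCast, ← zpow_mul, ← zpow_mul, mul_comm]
      rw [h1]
      conv_lhs => rw [ex_spec E (u M)]
      rw [mul_pow]
      have h2 : ((tp E (u M) : (𝓞 E)ˣ)) ^ t = 1 := by
        rw [ht, mul_comm t0, pow_mul, torsion_pow E _ (tp E (u M)).2, one_pow]
      rw [h2, one_mul]
    have ha := hleo (rank E) η ?_ ?_ a (fun k i => ex E (u (φ k)) i) ?_ ?_
    · rw [ha] at hlim
      have h1 : ∀ i, ∀ᶠ k in atTop, (p : ℤ) ^ n ∣ ex E (u (φ k)) i := by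
        intro i
        have h2 : Tendsto (fun k => ‖((ex E (u (φ k)) i : ℤ) : ℤ_[p])‖) atTop (𝓝 0) := by
          have h3 := (tendsto_pi_nhds.1 hlim i).norm
          simpa using h3
        have hpos : (0 : ℝ) < (p : ℝ) ^ (-(n : ℤ)) := by
          have : (0 : ℝ) < p := by exact_mod_cast hp.pos
          positivity
        filter_upwards [h2.eventually_lt_const hpos] with k hk
        have h4 := hk.le
        rw [PadicInt.norm_int_le_pow_iff_dvd] at h4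
        exact_mod_cast h4
      obtain ⟨k, hk⟩ := (eventually_all.2 h1).exists
      exact hu2 (φ k) hk
    · intro i
      have h1 := ht0w (fundSystem E i ^ torsionOrder E)
      have h2 : ((η i : (𝓞 E)ˣ) : 𝓞 E) =
          (((fundSystem E i ^ torsionOrder E : (𝓞 E)ˣ)) : 𝓞 E) ^ t0 := by
        rw [hη, ← Units.val_pow_eq_pow_val, ← pow_mul, ht, mul_comm]
      rw [h2]
      exact h1
    · intro c hc
      have h1 : ∀ j, ex E (∏ i, η i ^ c i) j = 0 := by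
        intro j
        rw [hc, ex_one]
      funext j
      have h2 := h1 j
      rw [ex_prod] at h2
      simp only [hη, ex_pow, ex_fund] at h2
      simp only [mul_ite, mul_one, mul_zero, Finset.sum_ite_eq', Finset.mem_univ, if_true] at h2
      rcases mul_eq_zero.1 h2 with h3 | h3
      · exact h3
      · exact absurd h3 (by exact_mod_cast htpos.ne')
    · intro i
      exact tendsto_pi_nhds.1 hlim i
    · intro N
      filter_upwards [eventually_ge_atTop N] with k hk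
      rw [← hx (φ k)]
      have h1 : N ≤ φ k := hk.trans (hφ.id_le k)
      refine (pow_dvd_pow _ h1).trans ((mem_Cl.mp (hu1 (φ k))).trans ?_)
      rw [Units.val_pow_eq_pow_val]
      have := sub_dvd_pow_sub_pow ((u (φ k) : (𝓞 E)ˣ) : 𝓞 E) 1 t
      rwa [one_pow] at this
  · intro htop n ε _ hε a m hlim hm
    refine padic_indep_of_int_indep p (fun i j => ex E (ε i) j)
      (fun c hc => indep_of_ex E ε hε c hc) a ?_
    intro j
    have hp1 : 1 < p := hp.one_lt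
    have h1 : Tendsto (fun k => (((∑ i, m k i * ex E (ε i) j : ℤ)) : ℤ_[p])) atTop
        (𝓝 (∑ i, a i * ((ex E (ε i) j : ℤ) : ℤ_[p]))) := by
      push_cast
      exact tendsto_finsetSum _ fun i _ => Tendsto.mul (hlim i) tendsto_const_nhds
    have h2 : ∀ s : ℕ, ‖∑ i, a i * ((ex E (ε i) j : ℤ) : ℤ_[p])‖ ≤ (p : ℝ) ^ (-(s : ℤ)) := by
      intro s
      refine le_of_tendsto h1.norm ?_
      obtain ⟨M, hM⟩ := htop s
      filter_upwards [hm M] with k hk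
      have hw := hM (mem_Cl.mpr hk) j
      rw [PadicInt.norm_int_le_pow_iff_dvd, ← ex_prod]
      exact_mod_cast hw
    have h3 : Tendsto (fun s : ℕ => (p : ℝ) ^ (-(s : ℤ))) atTop (𝓝 0) := by
      have h4 : (fun s : ℕ => (p : ℝ) ^ (-(s : ℤ))) = fun s : ℕ => ((p : ℝ)⁻¹) ^ s := by
        funext s
        rw [zpow_neg, zpow_natCast, inv_pow]
      rw [h4]
      refine tendsto_pow_atTop_nhds_zero_of_lt_one (by positivity) ?_
      exact inv_lt_one_of_one_lt₀ (by exact_mod_cast hp1)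
    have h5 : ‖∑ i, a i * ((ex E (ε i) j : ℤ) : ℤ_[p])‖ ≤ 0 :=
      ge_of_tendsto h3 (Eventually.of_forall h2)
    exact norm_le_zero_iff.1 h5

/-! ### negligible maps -/

/-- maps of the units which take values in `Pw n` at the units close to `1` -/
def Bd (p : ℕ) (φ : (𝓞 E)ˣ → (𝓞 E)ˣ) : Prop := ∀ n, ∃ M, ∀ u ∈ Cl E p M, φ u ∈ Pw E p n

lemma leo_iff_bd (p : ℕ) [Fact p.Prime] : Leopoldt E p ↔ Bd p (fun u : (𝓞 E)ˣ => u) :=
  leo_iff p

lemma Bd.mul {p : ℕ} {φ ψ : (𝓞 E)ˣ → (𝓞 E)ˣ} (h1 : Bd p φ) (h2 : Bd p ψ) :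
    Bd p (fun u => φ u * ψ u) := fun n => by
  obtain ⟨M1, hM1⟩ := h1 n
  obtain ⟨M2, hM2⟩ := h2 n
  exact ⟨max M1 M2, fun u hu => mul_mem (hM1 u (Cl_anti (le_max_left _ _) hu))
    (hM2 u (Cl_anti (le_max_right _ _) hu))⟩

lemma Bd.inv {p : ℕ} {φ : (𝓞 E)ˣ → (𝓞 E)ˣ} (h1 : Bd p φ) : Bd p (fun u => (φ u)⁻¹) := fun n => by
  obtain ⟨M1, hM1⟩ := h1 n
  exact ⟨M1, fun u hu => inv_mem (hM1 u hu)⟩

lemma Bd.zpow {p : ℕ} {φ : (𝓞 E)ˣ → (𝓞 E)ˣ} (h1 : Bd p φ) (k : ℤ) :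
    Bd p (fun u => φ u ^ k) := fun n => by
  obtain ⟨M1, hM1⟩ := h1 n
  exact ⟨M1, fun u hu => zpow_mem (hM1 u hu) k⟩

lemma Bd.prod {p : ℕ} {ι : Type} (s : Finset ι) {φ : ι → (𝓞 E)ˣ → (𝓞 E)ˣ}
    (h : ∀ i ∈ s, Bd p (φ i)) : Bd p (fun u => ∏ i ∈ s, φ i u) := by
  classical
  induction s using Finset.induction_on with
  | empty => exact fun n => ⟨0, fun u _ => by
      show ∏ i ∈ ∅, φ i u ∈ Pw E p n
      rw [Finset.prod_empty]; exact one_mem _⟩
  | insert a s ha ih =>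
    have h1 := (h a (Finset.mem_insert_self a s)).mul
      (ih fun i hi => h i (Finset.mem_insert_of_mem hi))
    intro n
    obtain ⟨M, hM⟩ := h1 n
    exact ⟨M, fun u hu => by
      show ∏ i ∈ insert a s, φ i u ∈ Pw E p n
      rw [Finset.prod_insert ha]; exact hM u hu⟩

lemma Bd.congr {p : ℕ} {φ ψ : (𝓞 E)ˣ → (𝓞 E)ˣ} (h : Bd p φ)
    (h2 : ∀ u, ψ u * (φ u)⁻¹ ∈ torsion E) : Bd p ψ := fun n => by
  obtain ⟨M, hM⟩ := h n
  refine ⟨M, fun u hu => ?_⟩
  have h3 : ψ u = (ψ u * (φ u)⁻¹) * φ u := by group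
  rw [h3]
  exact mul_mem (tors_le_Pw (h2 u)) (hM u hu)

lemma Bd.of_pow {p : ℕ} (hp : p.Prime) {φ : (𝓞 E)ˣ → (𝓞 E)ˣ} {m : ℤ} (hm : m ≠ 0)
    (h : Bd p (fun u => φ u ^ m)) : Bd p φ := fun n => by
  obtain ⟨c, hc⟩ := exists_div p hp m hm
  obtain ⟨M, hM⟩ := h (n + c)
  refine ⟨M, fun u hu j => hc n _ ?_⟩
  have h1 := hM u hu j
  rwa [ex_zpow] at h1

/-- endomorphisms preserve `Pw` -/
lemma map_Pw {E' : Type} [Field E'] [NumberField E'] {p n : ℕ} (f : (𝓞 E)ˣ →* (𝓞 E')ˣ)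
    {u : (𝓞 E)ˣ} (hu : u ∈ Pw E p n) : f u ∈ Pw E' p n := by
  rw [mem_Pw_iff] at hu ⊢
  obtain ⟨ζ, hζ, w, rfl⟩ := hu
  refine ⟨f ζ, ?_, f w, by rw [map_mul, map_pow]⟩
  rw [NumberField.Units.torsion, CommGroup.mem_torsion] at hζ ⊢
  exact f.isOfFinOrder hζ

end

end Pool.Agent.R362.LM
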