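import Mathlib
import Pool.Agent.R362.LM.Crit

/-!
# The Galois action on the units and norms to subfields
-/

set_option autoImplicit false
set_option linter.unusedSectionVars false

namespace Pool.Agent.R362.LM

open Finset NumberField NumberField.Units Pool.Agent.H637R2.Leo Pool.Agent.Y944.LC

/-- the action of a ring homomorphism on units -/
noncomputable def um {E F : Type} [Field E] [Field F] (f : E →+* F) :
    (𝓞 E)ˣ →* (𝓞 F)ˣ := Units.map (RingOfIntegers.mapRingHom f : 𝓞 E →* 𝓞 F)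

lemma um_coe {E F : Type} [Field E] [Field F] (f : E →+* F) (u : (𝓞 E)ˣ) :
    (((um f u : (𝓞 F)ˣ) : 𝓞 F) : F) = f ((u : 𝓞 E) : E) := rfl

lemma u_ext {E : Type} [Field E] {u v : (𝓞 E)ˣ} (h : ((u : 𝓞 E) : E) = ((v : 𝓞 E) : E)) :
    u = v := Units.ext (RingOfIntegers.ext h)

lemma um_comp {E F K : Type} [Field E] [Field F] [Field K] (f : E →+* F) (g : F →+* K)
    (u : (𝓞 E)ˣ) : um g (um f u) = um (g.comp f) u := rfl

lemma um_inj {E F : Type} [Field E] [Field F] (f : E →+* F) : Function.Injective (um f) := by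
  intro u v h
  refine u_ext (f.injective ?_)
  rw [← um_coe, ← um_coe, h]

section

variable {E F : Type} [Field E] [NumberField E] [Field F] [NumberField F]

lemma um_Cl (f : E →+* F) {p M : ℕ} {u : (𝓞 E)ˣ} (hu : u ∈ Cl E p M) : um f u ∈ Cl F p M := by
  rw [mem_Cl] at hu ⊢
  have h1 := map_dvd (RingOfIntegers.mapRingHom f) hu
  rw [map_pow, map_natCast, map_sub, map_one] at h1
  exact h1

lemma um_Pw (f : E →+* F) {p n : ℕ} {u : (𝓞 E)ˣ} (hu : u ∈ Pw E p n) : um f u ∈ Pw F p n :=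
  map_Pw (um f) hu

/-- a unit of `F` with value in `E` -/
lemma exists_unit (f : E →+* F) (x : (𝓞 F)ˣ) (e : E) (he : f e = ((x : 𝓞 F) : F)) :
    ∃ v : (𝓞 E)ˣ, um f v = x := by
  have hint : ∀ (y : E) (z : 𝓞 F), f y = (z : F) → IsIntegral ℤ y := by
    intro y z hyz
    have h1 : IsIntegral ℤ (f y) := by rw [hyz]; exact z.isIntegral_coe
    obtain ⟨P, hP, hP2⟩ := h1
    refine ⟨P, hP, f.injective ?_⟩
    rw [map_zero, Polynomial.hom_eval₂]
    have h3 : f.comp (algebraMap ℤ E) = algebraMap ℤ F := RingHom.ext_int _ _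
    rw [h3]
    exact hP2
  have hx0 : ((x : 𝓞 F) : F) ≠ 0 := by
    simp
  have he0 : e ≠ 0 := by
    rintro rfl
    rw [map_zero] at he
    exact hx0 he.symm
  have hxi : (((x⁻¹ : (𝓞 F)ˣ) : 𝓞 F) : F) * ((x : 𝓞 F) : F) = 1 := by
    rw [← map_mul, ← Units.val_mul, inv_mul_cancel]
    simp
  have h2 : f e⁻¹ = (((x⁻¹ : (𝓞 F)ˣ) : 𝓞 F) : F) := by
    rw [map_inv₀, he]
    exact (eq_inv_of_mul_eq_one_left hxi).symm
  refine ⟨⟨⟨e, hint e _ he⟩, ⟨e⁻¹, hint _ _ h2⟩, ?_, ?_⟩, ?_⟩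
  · apply RingOfIntegers.ext
    simp only [map_mul, map_one]
    exact mul_inv_cancel₀ he0
  · apply RingOfIntegers.ext
    simp only [map_mul, map_one]
    exact inv_mul_cancel₀ he0
  · exact u_ext he

lemma Cl_of_um (f : E →+* F) {p M : ℕ} (hp : p ≠ 0) {v : (𝓞 E)ˣ} (hv : um f v ∈ Cl F p M) :
    v ∈ Cl E p M := by
  rw [mem_Cl] at hv ⊢
  obtain ⟨y, hy⟩ := hv
  have hpE : ((p : E)) ^ M ≠ 0 := pow_ne_zero _ (Nat.cast_ne_zero.mpr hp)
  have hpF : ((p : F)) ^ M ≠ 0 := pow_ne_zero _ (Nat.cast_ne_zero.mpr hp)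
  have h0 := congrArg (fun z : 𝓞 F => (z : F)) hy
  simp only [map_sub, map_one, map_mul, map_pow, map_natCast] at h0
  have h1 : f ((((v : 𝓞 E) : E) - 1) / (p : E) ^ M) = (y : F) := by
    rw [map_div₀, map_sub, map_one, map_pow, map_natCast, div_eq_iff hpF, mul_comm]
    exact h0
  have h2 : IsIntegral ℤ ((((v : 𝓞 E) : E) - 1) / (p : E) ^ M) := by
    have h1' : IsIntegral ℤ (f ((((v : 𝓞 E) : E) - 1) / (p : E) ^ M)) := by
      rw [h1]; exact y.isIntegral_coe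
    obtain ⟨P, hP, hP2⟩ := h1'
    refine ⟨P, hP, f.injective ?_⟩
    rw [map_zero, Polynomial.hom_eval₂]
    have h3 : f.comp (algebraMap ℤ E) = algebraMap ℤ F := RingHom.ext_int _ _
    rw [h3]
    exact hP2
  refine ⟨⟨_, h2⟩, RingOfIntegers.ext ?_⟩
  simp only [map_sub, map_one, map_mul, map_pow, map_natCast]
  rw [RingOfIntegers.map_mk, mul_div_cancel₀ _ hpE]

/-- composition of a negligible map with an automorphism -/
lemma Bd.left {p : ℕ} {φ : (𝓞 E)ˣ → (𝓞 E)ˣ} (h : Bd p φ) (f : E →+* E) :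
    Bd p (fun u => um f (φ u)) := fun n => by
  obtain ⟨M, hM⟩ := h n
  exact ⟨M, fun u hu => um_Pw f (hM u hu)⟩

lemma Bd.left_hom {p : ℕ} {φ : (𝓞 E)ˣ → (𝓞 E)ˣ} (h : Bd p φ) (f : (𝓞 E)ˣ →* (𝓞 E)ˣ) :
    Bd p (fun u => f (φ u)) := fun n => by
  obtain ⟨M, hM⟩ := h n
  exact ⟨M, fun u hu => map_Pw f (hM u hu)⟩

lemma Bd.right {p : ℕ} {φ : (𝓞 E)ˣ → (𝓞 E)ˣ} (h : Bd p φ) (f : E →+* E) :
    Bd p (fun u => φ (um f u)) := fun n => by
  obtain ⟨M, hM⟩ := h n
  exact ⟨M, fun u hu => hM _ (um_Cl f hu)⟩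

/-- If `φ` preserves closeness and has values in the subfield `E`, which satisfies Leopoldt's
conjecture, then it is negligible. -/
lemma bd_of_sub (f : E →+* F) (p : ℕ) [Fact p.Prime] (hE : Leopoldt E p)
    (φ : (𝓞 F)ˣ → (𝓞 F)ˣ) (h1 : ∀ M, ∀ u ∈ Cl F p M, φ u ∈ Cl F p M)
    (h2 : ∀ u, ∃ v : (𝓞 E)ˣ, um f v = φ u) : Bd p φ := fun n => by
  obtain ⟨M, hM⟩ := (leo_iff p).mp hE n
  refine ⟨M, fun u hu => ?_⟩
  obtain ⟨v, hv⟩ := h2 u
  rw [← hv]
  refine um_Pw f (hM (Cl_of_um f (Fact.out : p.Prime).ne_zero ?_))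
  rw [hv]
  exact h1 M u hu

end

section

variable {K L : Type} [Field K] [NumberField K] [Field L] [NumberField L] [Algebra K L]

/-- the action of an automorphism -/
noncomputable def act (g : L ≃ₐ[K] L) : (𝓞 L)ˣ →* (𝓞 L)ˣ := um (g : L →+* L)

lemma act_mul (g h : L ≃ₐ[K] L) (u : (𝓞 L)ˣ) : act (g * h) u = act g (act h u) := rfl

lemma act_one (u : (𝓞 L)ˣ) : act (1 : L ≃ₐ[K] L) u = u := rfl

/-- the norm of a subgroup -/
noncomputable def nm (H : Subgroup (L ≃ₐ[K] L)) [Fintype H] (u : (𝓞 L)ˣ) : (𝓞 L)ˣ :=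
  ∏ h : H, act (h : L ≃ₐ[K] L) u

lemma nm_fixed (H : Subgroup (L ≃ₐ[K] L)) [Fintype H] (u : (𝓞 L)ˣ) (g : L ≃ₐ[K] L) (hg : g ∈ H) :
    act g (nm H u) = nm H u := by
  unfold nm
  rw [map_prod]
  exact Fintype.prod_equiv (Equiv.mulLeft (⟨g, hg⟩ : H)) _ _ fun h => rfl

/-- Leopoldt's conjecture for the fixed field makes the norm negligible. -/
lemma bd_nm (p : ℕ) [Fact p.Prime] (H : Subgroup (L ≃ₐ[K] L)) [Fintype H]
    (hH : Leopoldt (IntermediateField.fixedField H) p) : Bd p (nm (L := L) H) := by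
  refine bd_of_sub (algebraMap (IntermediateField.fixedField H) L) p hH _ ?_ ?_
  · intro M u hu
    exact Subgroup.prod_mem _ fun h _ => um_Cl _ hu
  · intro u
    have h1 : ((nm H u : 𝓞 L) : L) ∈ IntermediateField.fixedField H := by
      rw [IntermediateField.mem_fixedField_iff]
      intro g hg
      have h2 := nm_fixed H u g hg
      have h3 := congrArg (fun z : (𝓞 L)ˣ => ((z : 𝓞 L) : L)) h2
      exact h3
    exact exists_unit (algebraMap (IntermediateField.fixedField H) L) _ ⟨_, h1⟩ rfl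

end

end Pool.Agent.R362.LM
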