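import Mathlib
import Pool.Agent.R362.LM.Act

/-!
# Norm relations and minimal counterexamples to Leopoldt's conjecture
-/

set_option autoImplicit false
set_option linter.unusedSectionVars false

namespace Pool.Agent.R362.LM

open Finset NumberField NumberField.Units Pool.Agent.H637R2.Leo Pool.Agent.Y944.LC

variable {K L : Type} [Field K] [NumberField K] [Field L] [NumberField L] [Algebra K L]

lemma nm_eq [Fintype (L ≃ₐ[K] L)] [DecidableEq (L ≃ₐ[K] L)] (H : Subgroup (L ≃ₐ[K] L)) [Fintype H]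
    [DecidablePred (· ∈ H)] (u : (𝓞 L)ˣ) :
    nm H u = u * ∏ g ∈ univ.filter (fun g => g ∈ H ∧ g ≠ 1), act g u := by
  have h1 : nm H u = ∏ g ∈ univ.filter (fun g => g ∈ H), act g u := by
    unfold nm
    rw [← Finset.prod_subtype (univ.filter fun g => g ∈ H) (p := fun g => g ∈ H) (by simp)
      (fun g => act g u)]
  have h2 : univ.filter (fun g => g ∈ H) =
      insert (1 : L ≃ₐ[K] L) (univ.filter fun g => g ∈ H ∧ g ≠ 1) := by
    ext g
    simp only [mem_filter, mem_univ, true_and, mem_insert]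
    constructor
    · intro hg
      by_cases h : g = 1
      · exact Or.inl h
      · exact Or.inr ⟨hg, h⟩
    · rintro (rfl | h)
      · exact one_mem H
      · exact h.1
  rw [h1, h2, Finset.prod_insert (by simp), act_one]

/-- two subgroups of prime order with a common nontrivial element are equal -/
lemma prime_sub {G : Type} [Group G] [Finite G] {C : Subgroup G} (hC : (Nat.card C).Prime) {g : G}
    (hg : g ∈ C) (hg1 : g ≠ 1) : C = Subgroup.zpowers g := by
  have h1 : Subgroup.zpowers g ≤ C := by rwa [Subgroup.zpowers_le]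
  have h2 : Nat.card (Subgroup.zpowers g) ∣ Nat.card C := Subgroup.card_dvd_of_le h1
  rcases (Nat.dvd_prime hC).mp h2 with h3 | h3
  · exact absurd ((Subgroup.zpowers_eq_bot).mp (Subgroup.eq_bot_of_card_eq _ h3)) hg1
  · exact (Subgroup.eq_of_le_of_card_ge h1 h3.ge).symm

lemma prime_order {G : Type} [Group G] [Finite G] {H : Subgroup G} {q r : ℕ} (hq : q.Prime)
    (hr : r.Prime) (hH : Nat.card H = q * r) (hc : ¬ IsCyclic H) {g : G} (hg : g ∈ H)
    (hg1 : g ≠ 1) : (Nat.card (Subgroup.zpowers g)).Prime := by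
  have h1 : Subgroup.zpowers g ≤ H := by rwa [Subgroup.zpowers_le]
  have h2 : Nat.card (Subgroup.zpowers g) ∣ Nat.card H := Subgroup.card_dvd_of_le h1
  have h3 : Nat.card (Subgroup.zpowers g) ≠ 1 := fun h => hg1
    ((Subgroup.zpowers_eq_bot).mp (Subgroup.eq_bot_of_card_eq _ h))
  have h4 : Nat.card (Subgroup.zpowers g) ≠ q * r := by
    intro h
    have h5 : Subgroup.zpowers g = H := Subgroup.eq_of_le_of_card_ge h1 (by rw [h, hH])
    apply hc
    rw [← h5]
    infer_instance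
  rw [hH] at h2
  obtain ⟨a, b, ha, hb, hab⟩ := (Nat.dvd_mul).mp h2
  rcases (Nat.dvd_prime hq).mp ha with rfl | rfl <;> rcases (Nat.dvd_prime hr).mp hb with rfl | rfl
  · exact absurd hab.symm h3
  · rw [one_mul] at hab
    rw [← hab]
    exact hr
  · rw [mul_one] at hab
    rw [← hab]
    exact hq
  · exact absurd hab.symm h4

/-- **The norm relation of a noncyclic group of order `q r`.** -/
theorem leo_of_noncyclic (p : ℕ) [Fact p.Prime]
    (hF : ∀ C : Subgroup (L ≃ₐ[K] L), C ≠ ⊥ → Leopoldt (IntermediateField.fixedField C) p)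
    (H : Subgroup (L ≃ₐ[K] L)) {q r : ℕ} (hq : q.Prime) (hr : r.Prime)
    (hH : Nat.card H = q * r) (hc : ¬ IsCyclic H) : Leopoldt L p := by
  classical
  have : Fintype (L ≃ₐ[K] L) := Fintype.ofFinite _
  have : Fintype (Subgroup (L ≃ₐ[K] L)) := Fintype.ofFinite _
  set 𝒞 : Finset (Subgroup (L ≃ₐ[K] L)) :=
    univ.filter fun C => C ≤ H ∧ (Nat.card C).Prime with h𝒞
  have hHne : H ≠ ⊥ := by
    rintro rfl
    rw [Subgroup.card_bot] at hH
    have := hq.one_lt
    have := hr.one_lt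
    nlinarith
  -- two members
  have hcard : 2 ≤ 𝒞.card := by
    obtain ⟨g, hg, hg1⟩ := (Subgroup.ne_bot_iff_exists_ne_one.mp hHne) |> fun ⟨g, h⟩ =>
      (⟨(g : L ≃ₐ[K] L), g.2, fun h1 => h (Subtype.ext h1)⟩ :
        ∃ g : L ≃ₐ[K] L, g ∈ H ∧ g ≠ 1)
    have hlt : ∃ g' ∈ H, g' ∉ Subgroup.zpowers g := by
      by_contra hcon
      push Not at hcon
      apply hc
      have : H = Subgroup.zpowers g := le_antisymm hcon (by rwa [Subgroup.zpowers_le])
      rw [this]
      infer_instance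
    obtain ⟨g', hg', hgg⟩ := hlt
    have hg'1 : g' ≠ 1 := by
      rintro rfl
      exact hgg (one_mem _)
    have h1 : Subgroup.zpowers g ∈ 𝒞 := by
      rw [h𝒞, mem_filter]
      exact ⟨mem_univ _, by rwa [Subgroup.zpowers_le], prime_order hq hr hH hc hg hg1⟩
    have h2 : Subgroup.zpowers g' ∈ 𝒞 := by
      rw [h𝒞, mem_filter]
      exact ⟨mem_univ _, by rwa [Subgroup.zpowers_le], prime_order hq hr hH hc hg' hg'1⟩
    have h3 : Subgroup.zpowers g ≠ Subgroup.zpowers g' := by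
      intro h
      exact hgg (h ▸ Subgroup.mem_zpowers g')
    exact Finset.one_lt_card.mpr ⟨_, h1, _, h2, h3⟩
  -- the relation
  have hrel : ∀ u : (𝓞 L)ˣ, u ^ ((𝒞.card : ℤ) - 1) = (∏ C ∈ 𝒞, nm C u) * (nm H u)⁻¹ := by
    intro u
    have h1 : ∏ C ∈ 𝒞, nm C u =
        u ^ 𝒞.card * ∏ C ∈ 𝒞, ∏ g ∈ univ.filter (fun g => g ∈ C ∧ g ≠ 1), act g u := by
      rw [← Finset.prod_const, ← Finset.prod_mul_distrib]
      exact Finset.prod_congr rfl fun C _ => nm_eq C u
    have h2 : ∏ C ∈ 𝒞, ∏ g ∈ univ.filter (fun g => g ∈ C ∧ g ≠ 1), act g u =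
        ∏ g ∈ univ.filter (fun g => g ∈ H ∧ g ≠ 1), act g u := by
      rw [← Finset.prod_biUnion]
      · refine Finset.prod_congr ?_ fun _ _ => rfl
        ext g
        simp only [mem_biUnion, mem_filter, mem_univ, true_and, h𝒞]
        constructor
        · rintro ⟨C, ⟨hC, -⟩, hg, hg1⟩
          exact ⟨hC hg, hg1⟩
        · rintro ⟨hg, hg1⟩
          exact ⟨Subgroup.zpowers g, ⟨by rwa [Subgroup.zpowers_le],
            prime_order hq hr hH hc hg hg1⟩, Subgroup.mem_zpowers g, hg1⟩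
      · intro C hC C' hC' hne
        rw [Function.onFun, Finset.disjoint_left]
        intro g hg hg'
        simp only [mem_filter, mem_univ, true_and] at hg hg'
        apply hne
        rw [h𝒞, mem_coe, mem_filter] at hC hC'
        rw [prime_sub hC.2.2 hg.1 hg.2, prime_sub hC'.2.2 hg'.1 hg'.2]
    rw [h1, h2, nm_eq H u, zpow_sub, zpow_one, zpow_natCast, mul_inv]
    rw [mul_assoc, ← mul_assoc (∏ g ∈ univ.filter (fun g => g ∈ H ∧ g ≠ 1), act g u),
      mul_comm (∏ g ∈ univ.filter (fun g => g ∈ H ∧ g ≠ 1), act g u) u⁻¹, mul_assoc,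
      mul_inv_cancel, mul_one]
  rw [leo_iff_bd]
  refine Bd.of_pow (m := (𝒞.card : ℤ) - 1) (Fact.out) (by omega) ?_
  have hb : Bd p (fun u : (𝓞 L)ˣ => (∏ C ∈ 𝒞, nm C u) * (nm H u)⁻¹) := by
    refine Bd.mul (Bd.prod 𝒞 fun C hC => ?_) (bd_nm p H (hF H hHne)).inv
    refine bd_nm p C (hF C ?_)
    rintro rfl
    rw [h𝒞, mem_filter, Subgroup.card_bot] at hC
    exact Nat.not_prime_one hC.2.2
  intro n
  obtain ⟨M, hM⟩ := hb n
  refine ⟨M, fun u hu => ?_⟩
  show u ^ ((𝒞.card : ℤ) - 1) ∈ Pw L p n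
  rw [hrel u]
  exact hM u hu

/-- automorphisms acting trivially up to negligible maps -/
theorem leo_of_trivial (p : ℕ) [Fact p.Prime] (x : L ≃ₐ[K] L)
    (hF : Leopoldt (IntermediateField.fixedField (Subgroup.zpowers x)) p)
    (hx : Bd p (fun u : (𝓞 L)ˣ => act x u * u⁻¹)) : Leopoldt L p := by
  classical
  have : Fintype (L ≃ₐ[K] L) := Fintype.ofFinite _
  -- powers
  have hpow : ∀ i : ℕ, Bd p (fun u : (𝓞 L)ˣ => act (x ^ i) u * u⁻¹) := by
    intro i
    induction i with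
    | zero =>
      intro n
      refine ⟨0, fun u _ => ?_⟩
      show act (x ^ 0) u * u⁻¹ ∈ Pw L p n
      rw [pow_zero, act_one, mul_inv_cancel]
      exact one_mem _
    | succ i ih =>
      have h1 := (hx.right ((x ^ i : L ≃ₐ[K] L) : L →+* L)).mul ih
      intro n
      obtain ⟨M, hM⟩ := h1 n
      refine ⟨M, fun u hu => ?_⟩
      have h2 := hM u hu
      have h3 : act (x ^ (i + 1)) u * u⁻¹ =
          act x (act (x ^ i) u) * (act (x ^ i) u)⁻¹ * (act (x ^ i) u * u⁻¹) := by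
        rw [pow_succ', act_mul]
        group
      show act (x ^ (i + 1)) u * u⁻¹ ∈ Pw L p n
      rw [h3]
      exact h2
  have hz : ∀ g : Subgroup.zpowers x, Bd p (fun u : (𝓞 L)ˣ => act (g : L ≃ₐ[K] L) u * u⁻¹) := by
    rintro ⟨g, hg⟩
    obtain ⟨i, rfl⟩ := (Submonoid.mem_powers_iff g x).mp (mem_powers_iff_mem_zpowers.mpr hg)
    exact hpow i
  have h1 := (bd_nm p _ hF).mul (Bd.prod univ fun g _ => hz g).inv
  rw [leo_iff_bd]
  refine Bd.of_pow (m := (Fintype.card (Subgroup.zpowers x) : ℤ)) Fact.out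
    (by exact_mod_cast Fintype.card_ne_zero) ?_
  intro n
  obtain ⟨M, hM⟩ := h1 n
  refine ⟨M, fun u hu => ?_⟩
  have h2 := hM u hu
  have h3 : nm (Subgroup.zpowers x) u * (∏ g : Subgroup.zpowers x, act (g : L ≃ₐ[K] L) u * u⁻¹)⁻¹
      = u ^ (Fintype.card (Subgroup.zpowers x) : ℤ) := by
    rw [Finset.prod_mul_distrib, Finset.prod_const, Finset.card_univ, mul_inv, inv_pow, inv_inv,
      zpow_natCast]
    unfold nm
    rw [← mul_assoc, mul_inv_cancel, one_mul]
  show u ^ (Fintype.card (Subgroup.zpowers x) : ℤ) ∈ Pw L p n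
  rw [← h3]
  exact h2

/-- the norm of an involution -/
lemma bd_invol (p : ℕ) [Fact p.Prime] (c : L ≃ₐ[K] L) (hc : c * c = 1)
    (hF : Leopoldt (IntermediateField.fixedField (Subgroup.zpowers c)) p) :
    Bd p (fun u : (𝓞 L)ˣ => u * act c u) := by
  refine bd_of_sub (algebraMap (IntermediateField.fixedField (Subgroup.zpowers c)) L) p
    hF _ (fun M u hu => mul_mem hu (um_Cl _ hu)) fun u => ?_
  have h1 : ((u * act c u : (𝓞 L)ˣ) : 𝓞 L) ∈ {z : 𝓞 L | ∀ g ∈ Subgroup.zpowers c,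
      g (z : L) = z} := by
    intro g hg
    have h2 : act c (u * act c u) = u * act c u := by
      rw [map_mul, ← act_mul, hc, act_one, mul_comm]
    have h3 : c (((u * act c u : (𝓞 L)ˣ) : 𝓞 L) : L) = (((u * act c u : (𝓞 L)ˣ) : 𝓞 L) : L) :=
      congrArg (fun z : (𝓞 L)ˣ => ((z : 𝓞 L) : L)) h2
    have h4 : Subgroup.zpowers c ≤ MulAction.stabilizer (L ≃ₐ[K] L)
        (((u * act c u : (𝓞 L)ˣ) : 𝓞 L) : L) := by
      rw [Subgroup.zpowers_le, MulAction.mem_stabilizer_iff]
      exact h3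
    exact MulAction.mem_stabilizer_iff.mp (h4 hg)
  exact exists_unit _ _ ⟨_, (IntermediateField.mem_fixedField_iff _ _).mpr h1⟩ rfl

/-- At most one involution. -/
theorem leo_of_involutions (p : ℕ) [Fact p.Prime] (a b : L ≃ₐ[K] L) (ha : a * a = 1)
    (hb : b * b = 1) (_hab : a ≠ b)
    (hFa : Leopoldt (IntermediateField.fixedField (Subgroup.zpowers a)) p)
    (hFb : Leopoldt (IntermediateField.fixedField (Subgroup.zpowers b)) p)
    (hFab : Leopoldt (IntermediateField.fixedField (Subgroup.zpowers (a * b))) p) :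
    Leopoldt L p := by
  classical
  have hA := bd_invol p a ha hFa
  have hB := bd_invol p b hb hFb
  refine leo_of_trivial p (a * b) hFab ?_
  have h1 := (hA.right ((b : L ≃ₐ[K] L) : L →+* L)).mul hB.inv
  intro n
  obtain ⟨M, hM⟩ := h1 n
  refine ⟨M, fun u hu => ?_⟩
  have h2 := hM u hu
  have h3 : act (a * b) u * u⁻¹ = act b u * act a (act b u) * (u * act b u)⁻¹ := by
    rw [act_mul, mul_inv, mul_comm (act b u) (act a (act b u)), mul_assoc, ← mul_assoc (act b u),
      mul_comm (act b u) u⁻¹, mul_assoc, mul_inv_cancel, mul_one]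
  show act (a * b) u * u⁻¹ ∈ Pw L p n
  rw [h3]
  exact h2

end Pool.Agent.R362.LM
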