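import Mathlib
import Pool.Agent.R362.LM.Rel

/-!
# Complex conjugations
-/

set_option autoImplicit false
set_option linter.unusedSectionVars false

namespace Pool.Agent.R362.LM

open Finset NumberField NumberField.Units Pool.Agent.H637R2.Leo Pool.Agent.Y944.LC

section

variable {E F : Type} [Field E] [NumberField E] [Field F] [NumberField F]

lemma tors_map (T : (𝓞 E)ˣ →* (𝓞 F)ˣ) {u : (𝓞 E)ˣ} (h : u ∈ torsion E) : T u ∈ torsion F :=
  (CommGroup.mem_torsion _).mpr (T.isOfFinOrder ((CommGroup.mem_torsion _).mp h))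

/-- the exponents of the image under a homomorphism -/
lemma ex_map (T : (𝓞 E)ˣ →* (𝓞 F)ˣ) (u : (𝓞 E)ˣ) (i : Fin (rank F)) :
    ex F (T u) i = ∑ j, ex E u j * ex F (T (fundSystem E j)) i := by
  conv_lhs => rw [ex_spec E u]
  rw [map_mul, ex_mul, map_prod]
  have h1 : T (tp E u : (𝓞 E)ˣ) ∈ torsion F := tors_map T (tp E u).2
  rw [(ex_eq_zero_iff F _).mpr h1 i, zero_add]
  have h2 : ∏ j, T (fundSystem E j ^ ex E u j) = ∏ j, T (fundSystem E j) ^ ex E u j :=
    Finset.prod_congr rfl fun j _ => map_zpow _ _ _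
  rw [h2, ex_prod]

/-- An endomorphism of the units which is injective up to torsion is negligible only if the
identity is. -/
lemma bd_of_inj {p : ℕ} (hp : p.Prime) (T : (𝓞 E)ˣ →* (𝓞 E)ˣ)
    (hT : ∀ u, T u ∈ torsion E → u ∈ torsion E) (h : Bd p (T : (𝓞 E)ˣ → (𝓞 E)ˣ)) :
    Bd p (fun u : (𝓞 E)ˣ => u) := by
  classical
  let A : Matrix (Fin (rank E)) (Fin (rank E)) ℤ := fun i j => ex E (T (fundSystem E j)) i
  have hA : ∀ u, ex E (T u) = A.mulVec (ex E u) := by
    intro u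
    funext i
    rw [ex_map]
    unfold Matrix.mulVec dotProduct
    exact Finset.sum_congr rfl fun j _ => mul_comm _ _
  have hdet : A.det ≠ 0 := by
    intro h0
    obtain ⟨v, hv, hv0⟩ := Matrix.exists_mulVec_eq_zero_iff.mpr h0
    apply hv
    have h1 : ex E (∏ i, fundSystem E i ^ v i) = v :=
      ex_uniq E _ 1 (one_mem _) v (by rw [one_mul])
    have h2 : T (∏ i, fundSystem E i ^ v i) ∈ torsion E := by
      rw [← ex_eq_zero_iff]
      intro j
      rw [hA, h1, hv0]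
      rfl
    have h3 := (ex_eq_zero_iff E _).mpr (hT _ h2)
    funext j
    rw [← h1]
    exact h3 j
  refine Bd.of_pow hp hdet fun n => ?_
  obtain ⟨M, hM⟩ := h n
  refine ⟨M, fun u hu j => ?_⟩
  have h1 := hM u hu
  have h2 : A.adjugate.mulVec (ex E (T u)) = A.det • ex E u := by
    rw [hA, Matrix.mulVec_mulVec, Matrix.adjugate_mul, Matrix.smul_mulVec, Matrix.one_mulVec]
  have h3 := congrFun h2 j
  rw [ex_zpow]
  have h4 : A.det * ex E u j = (A.adjugate.mulVec (ex E (T u))) j := by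
    rw [h3]; rfl
  rw [h4]
  unfold Matrix.mulVec dotProduct
  exact Finset.dvd_sum fun i _ => Dvd.dvd.mul_left (h1 i) _

end

variable {L : Type} [Field L] [NumberField L]

lemma real_pos {ι : Type} [Fintype ι] [Group ι] (f : ι → ℝ) (t : ι → ι)
    (h : ∀ g, ∑ h, (f g + f (g * t h)) = 0) (h' g : ι) : f g + f (g * t h') = 0 := by
  have key : ∑ h, ∑ g, (f g + f (g * t h)) ^ 2 = 2 * ∑ g, f g * ∑ h, (f g + f (g * t h)) := by
    have h1 : ∀ h, ∑ g, (f g + f (g * t h)) ^ 2 = 2 * ∑ g, f g * (f g + f (g * t h)) := by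
      intro h
      have h2 : ∑ g, f (g * t h) ^ 2 = ∑ g, f g ^ 2 :=
        Fintype.sum_equiv (Equiv.mulRight (t h)) _ _ fun g => rfl
      have h3 : ∑ g, (f g + f (g * t h)) ^ 2 =
          ∑ g, f g ^ 2 + ∑ g, 2 * (f g * f (g * t h)) + ∑ g, f (g * t h) ^ 2 := by
        rw [← Finset.sum_add_distrib, ← Finset.sum_add_distrib]
        exact Finset.sum_congr rfl fun g _ => by ring
      have h4 : 2 * ∑ g, f g * (f g + f (g * t h)) =
          ∑ g, f g ^ 2 + ∑ g, 2 * (f g * f (g * t h)) + ∑ g, f g ^ 2 := by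
        rw [Finset.mul_sum, ← Finset.sum_add_distrib, ← Finset.sum_add_distrib]
        exact Finset.sum_congr rfl fun g _ => by ring
      rw [h3, h4, h2]
    rw [Finset.sum_congr rfl fun h _ => h1 h, ← Finset.mul_sum, Finset.sum_comm]
    congr 1
    exact Finset.sum_congr rfl fun g _ => by rw [Finset.mul_sum]
  have h0 : ∑ h, ∑ g, (f g + f (g * t h)) ^ 2 = 0 := by
    rw [key, Finset.sum_eq_zero fun g _ => by rw [h g, mul_zero], mul_zero]
  have h1 := (Finset.sum_eq_zero_iff_of_nonneg fun h _ =>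
    Finset.sum_nonneg fun g _ => sq_nonneg (f g + f (g * t h))).mp h0 h' (mem_univ _)
  have h2 := (Finset.sum_eq_zero_iff_of_nonneg fun g _ => sq_nonneg (f g + f (g * t h'))).mp h1 g
    (mem_univ _)
  exact pow_eq_zero_iff (two_ne_zero) |>.mp h2

/-- **Leopoldt's conjecture descends from the fixed field of a complex conjugation.** -/
theorem leo_of_conj [IsGalois ℚ L] (p : ℕ) [Fact p.Prime] (w0 : InfinitePlace L)
    (c : L ≃ₐ[ℚ] L) (hc : c * c = 1) (hcw : ∀ x : L, w0 (c x) = w0 x)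
    (hF : Leopoldt (IntermediateField.fixedField (Subgroup.zpowers c)) p) : Leopoldt L p := by
  classical
  have : Fintype (L ≃ₐ[ℚ] L) := Fintype.ofFinite _
  have hN := bd_invol p c hc hF
  -- the operator
  let T : (𝓞 L)ˣ →* (𝓞 L)ˣ :=
    ∏ h : L ≃ₐ[ℚ] L, (MonoidHom.id _ * act (h * c * h⁻¹))
  have hTu : ∀ u, T u = ∏ h : L ≃ₐ[ℚ] L, (u * act (h * c * h⁻¹) u) := by
    intro u
    show (∏ h : L ≃ₐ[ℚ] L, (MonoidHom.id (𝓞 L)ˣ * act (h * c * h⁻¹)) :
      (𝓞 L)ˣ →* (𝓞 L)ˣ) u = _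
    rw [MonoidHom.finsetProd_apply]
    rfl
  have hTB : Bd p (T : (𝓞 L)ˣ → (𝓞 L)ˣ) := by
    have h1 : Bd p (fun u : (𝓞 L)ˣ => ∏ h : L ≃ₐ[ℚ] L,
        act h (act h⁻¹ u * act c (act h⁻¹ u))) :=
      Bd.prod univ fun h _ => (hN.right ((h⁻¹ : L ≃ₐ[ℚ] L) : L →+* L)).left (h : L →+* L)
    intro n
    obtain ⟨M, hM⟩ := h1 n
    refine ⟨M, fun u hu => ?_⟩
    have h2 := hM u hu
    have h3 : T u = ∏ h : L ≃ₐ[ℚ] L, act h (act h⁻¹ u * act c (act h⁻¹ u)) := by
      rw [hTu]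
      refine Finset.prod_congr rfl fun h _ => ?_
      rw [map_mul, ← act_mul, ← act_mul, ← act_mul, mul_inv_cancel, act_one, mul_assoc]
    rw [h3]
    exact h2
  rw [leo_iff_bd]
  refine bd_of_inj Fact.out T ?_ hTB
  intro u hu
  -- positivity
  have hw0 : ∀ v : (𝓞 L)ˣ, w0 ((v : 𝓞 L) : L) ≠ 0 := fun v => by
    rw [Ne, map_eq_zero]
    simp
  let f : (L ≃ₐ[ℚ] L) → ℝ := fun g => Real.log (w0 ((act g u : 𝓞 L) : L))
  have hsum : ∀ g, ∑ h, (f g + f (g * (h * c * h⁻¹))) = 0 := by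
    intro g
    have h1 : act g (T u) ∈ torsion L := tors_map _ hu
    have h2 := (NumberField.Units.mem_torsion L).mp h1 w0
    have h3 : act g (T u) = ∏ h : L ≃ₐ[ℚ] L, (act g u * act (g * (h * c * h⁻¹)) u) := by
      rw [hTu, map_prod]
      exact Finset.prod_congr rfl fun h _ => by rw [map_mul, act_mul g]
    rw [h3] at h2
    have h4 : w0 (((∏ h : L ≃ₐ[ℚ] L, (act g u * act (g * (h * c * h⁻¹)) u) : (𝓞 L)ˣ) : 𝓞 L) : L)
        = ∏ h : L ≃ₐ[ℚ] L, (w0 ((act g u : 𝓞 L) : L) *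
          w0 ((act (g * (h * c * h⁻¹)) u : 𝓞 L) : L)) := by
      show w0 (algebraMap (𝓞 L) L _) = _
      rw [Units.coe_prod, map_prod, map_prod]
      refine Finset.prod_congr rfl fun h _ => ?_
      rw [Units.val_mul, map_mul, map_mul]
    rw [h4] at h2
    have h5 := congrArg Real.log h2
    rw [Real.log_prod (fun h _ => mul_ne_zero (hw0 _) (hw0 _)), Real.log_one] at h5
    rw [← h5]
    exact Finset.sum_congr rfl fun h _ => (Real.log_mul (hw0 _) (hw0 _)).symm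
  have hzero : ∀ g, f g = 0 := by
    intro g
    have h1 := real_pos f (fun h => h * c * h⁻¹) hsum g⁻¹ g
    have h2 : g * (g⁻¹ * c * g⁻¹⁻¹) = c * g := by group
    have h1' : f g + f (g * (g⁻¹ * c * g⁻¹⁻¹)) = 0 := h1
    rw [h2] at h1'
    have h3 : f (c * g) = f g := by
      show Real.log (w0 ((act (c * g) u : 𝓞 L) : L)) = Real.log (w0 ((act g u : 𝓞 L) : L))
      rw [act_mul]
      congr 1
      exact hcw _
    rw [h3] at h1'
    linarith
  rw [NumberField.Units.mem_torsion L]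
  intro w
  obtain ⟨σ, hσ⟩ := InfinitePlace.exists_smul_eq_of_comap_eq (k := ℚ) (w := w0) (w' := w)
    (Subsingleton.elim _ _)
  rw [← hσ, InfinitePlace.smul_apply]
  have h1 := hzero σ.symm
  have hpos : 0 < w0 ((act σ.symm u : 𝓞 L) : L) := lt_of_le_of_ne (apply_nonneg _ _) (hw0 _).symm
  exact Real.eq_one_of_pos_of_log_eq_zero hpos h1

end Pool.Agent.R362.LM
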