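import Mathlib
import Pool.Agent.R362.LM.Rel

/-!
# The fixed point free lattice of a minimal counterexample
-/

set_option autoImplicit false
set_option linter.unusedSectionVars false

namespace Pool.Agent.R362.LM

open Finset NumberField NumberField.Units Pool.Agent.H637R2.Leo Pool.Agent.Y944.LC

/-- The group `G` acts on a nonzero lattice such that only the neutral element has a nonzero fixed
vector. -/
def FixedPointFree (G : Type) [Group G] : Prop :=
  ∃ (V : Type) (_ : AddCommGroup V) (_ : Module ℤ V) (_ : Module.Finite ℤ V)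
    (_ : Module.Free ℤ V) (_ : Nontrivial V) (ρ : Representation ℤ G V),
    ∀ g : G, g ≠ 1 → ∀ v : V, ρ g v = v → v = 0

variable {K L : Type} [Field K] [NumberField K] [Field L] [NumberField L] [Algebra K L]
  [Fintype (L ≃ₐ[K] L)]

/-- an element of the group ring as an operator -/
noncomputable def op (x : (L ≃ₐ[K] L) → ℤ) (u : (𝓞 L)ˣ) : (𝓞 L)ˣ := ∏ g, act g u ^ x g

lemma op_add (x y : (L ≃ₐ[K] L) → ℤ) (u : (𝓞 L)ˣ) : op (x + y) u = op x u * op y u := by
  unfold op
  rw [← Finset.prod_mul_distrib]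
  exact Finset.prod_congr rfl fun g _ => by rw [Pi.add_apply, zpow_add]

lemma op_smul (m : ℤ) (x : (L ≃ₐ[K] L) → ℤ) (u : (𝓞 L)ˣ) : op (m • x) u = op x u ^ m := by
  unfold op
  rw [← Finset.prod_zpow]
  exact Finset.prod_congr rfl fun g _ => by
    rw [Pi.smul_apply, smul_eq_mul, mul_comm, zpow_mul]

lemma op_Cl (x : (L ≃ₐ[K] L) → ℤ) {p M : ℕ} {u : (𝓞 L)ˣ} (hu : u ∈ Cl L p M) :
    op x u ∈ Cl L p M :=
  Subgroup.prod_mem _ fun _ _ => zpow_mem (um_Cl _ hu) _

/-- left translation -/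
def tr (g : L ≃ₐ[K] L) : ((L ≃ₐ[K] L) → ℤ) →ₗ[ℤ] ((L ≃ₐ[K] L) → ℤ) where
  toFun x := fun h => x (g⁻¹ * h)
  map_add' _ _ := rfl
  map_smul' _ _ := rfl

lemma tr_apply (g : L ≃ₐ[K] L) (x : (L ≃ₐ[K] L) → ℤ) (h : L ≃ₐ[K] L) : tr g x h = x (g⁻¹ * h) :=
  rfl

lemma op_tr (g : L ≃ₐ[K] L) (x : (L ≃ₐ[K] L) → ℤ) (u : (𝓞 L)ˣ) :
    op (tr g x) u = act g (op x u) := by
  unfold op
  rw [map_prod]
  refine Fintype.prod_equiv (Equiv.mulLeft g⁻¹) _ _ fun h => ?_
  rw [map_zpow, ← act_mul, Equiv.coe_mulLeft, mul_inv_cancel_left, tr_apply]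

/-- the negligible elements of the group ring -/
def I (K L : Type) [Field K] [NumberField K] [Field L] [NumberField L] [Algebra K L]
    [Fintype (L ≃ₐ[K] L)] (p : ℕ) : Submodule ℤ ((L ≃ₐ[K] L) → ℤ) where
  carrier := {x | Bd p (op (L := L) x)}
  zero_mem' := fun n => ⟨0, fun u _ => by
    have : op (0 : (L ≃ₐ[K] L) → ℤ) u = 1 := by
      unfold op
      simp
    rw [this]
    exact one_mem _⟩
  add_mem' := fun {x y} hx hy n => by
    obtain ⟨M, hM⟩ := (Bd.mul hx hy) n
    exact ⟨M, fun u hu => by rw [op_add]; exact hM u hu⟩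
  smul_mem' := fun m x hx n => by
    obtain ⟨M, hM⟩ := (Bd.zpow hx m) n
    exact ⟨M, fun u hu => by rw [op_smul]; exact hM u hu⟩

lemma mem_I {p : ℕ} {x : (L ≃ₐ[K] L) → ℤ} : x ∈ I K L p ↔ Bd p (op (L := L) x) := Iff.rfl

lemma tr_I {p : ℕ} (g : L ≃ₐ[K] L) : I K L p ≤ (I K L p).comap (tr g) := by
  intro x hx n
  obtain ⟨M, hM⟩ := (Bd.left (mem_I.mp hx) (g : L →+* L)) n
  refine ⟨M, fun u hu => ?_⟩
  rw [op_tr]
  exact hM u hu

/-- the action on the quotient -/
noncomputable def rep (K L : Type) [Field K] [NumberField K] [Field L] [NumberField L]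
    [Algebra K L] [Fintype (L ≃ₐ[K] L)] (p : ℕ) :
    Representation ℤ (L ≃ₐ[K] L) (((L ≃ₐ[K] L) → ℤ) ⧸ I K L p) where
  toFun g := (I K L p).mapQ (I K L p) (tr g) (tr_I g)
  map_one' := by
    refine Submodule.linearMap_qext _ (LinearMap.ext fun x => ?_)
    rw [LinearMap.comp_apply, Submodule.mkQ_apply, Submodule.mapQ_apply]
    congr 1
  map_mul' g h := by
    refine Submodule.linearMap_qext _ (LinearMap.ext fun x => ?_)
    rw [LinearMap.comp_apply, LinearMap.comp_apply, Submodule.mkQ_apply, Submodule.mapQ_apply,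
      Module.End.mul_apply, Submodule.mapQ_apply, Submodule.mapQ_apply]
    congr 1

lemma rep_apply {p : ℕ} (g : L ≃ₐ[K] L) (x : (L ≃ₐ[K] L) → ℤ) :
    rep K L p g (Submodule.Quotient.mk x) = Submodule.Quotient.mk (tr g x) := rfl

/-- **The automorphism group of a minimal counterexample has a fixed point free lattice.** -/
theorem fpf (p : ℕ) [Fact p.Prime] (hL : ¬ Leopoldt L p)
    (hF : ∀ C : Subgroup (L ≃ₐ[K] L), C ≠ ⊥ → Leopoldt (IntermediateField.fixedField C) p) :
    FixedPointFree (L ≃ₐ[K] L) := by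
  classical
  have hp : p.Prime := Fact.out
  have htf : ∀ (m : ℤ) (v : ((L ≃ₐ[K] L) → ℤ) ⧸ I K L p), m ≠ 0 → m • v = 0 → v = 0 := by
    intro m v hm hv
    obtain ⟨x, rfl⟩ := Submodule.Quotient.mk_surjective _ v
    rw [← Submodule.Quotient.mk_smul, Submodule.Quotient.mk_eq_zero, mem_I] at hv
    rw [Submodule.Quotient.mk_eq_zero, mem_I]
    refine Bd.of_pow hp hm ?_
    intro n
    obtain ⟨M, hM⟩ := hv n
    refine ⟨M, fun u hu => ?_⟩
    show op x u ^ m ∈ Pw L p n
    rw [← op_smul]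
    exact hM u hu
  have hntf : Module.IsTorsionFree ℤ (((L ≃ₐ[K] L) → ℤ) ⧸ I K L p) := by
    refine ⟨fun m hm v w hvw => ?_⟩
    have h1 : m • (v - w) = 0 := by
      rw [smul_sub]
      exact sub_eq_zero.mpr hvw
    exact sub_eq_zero.mp (htf m _ hm.ne_zero h1)
  have hone : op (L := L) (Pi.single (1 : L ≃ₐ[K] L) (1 : ℤ)) = fun u => u := by
    funext u
    unfold op
    rw [Finset.prod_eq_single (1 : L ≃ₐ[K] L)]
    · rw [Pi.single_eq_same, zpow_one, act_one]
    · intro g _ hg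
      rw [Pi.single_eq_of_ne hg, zpow_zero]
    · intro h
      exact absurd (mem_univ _) h
  have hnt : Nontrivial (((L ≃ₐ[K] L) → ℤ) ⧸ I K L p) := by
    refine ⟨Submodule.Quotient.mk (Pi.single (1 : L ≃ₐ[K] L) (1 : ℤ)), 0, ?_⟩
    rw [Ne, Submodule.Quotient.mk_eq_zero, mem_I, hone, ← leo_iff_bd]
    exact hL
  refine ⟨((L ≃ₐ[K] L) → ℤ) ⧸ I K L p, inferInstance, inferInstance, inferInstance,
    Module.free_of_finite_type_torsion_free', hnt, rep K L p, ?_⟩
  intro g hg v hv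
  obtain ⟨x, rfl⟩ := Submodule.Quotient.mk_surjective _ v
  -- powers fix
  have hpow : ∀ i : ℕ, rep K L p (g ^ i) (Submodule.Quotient.mk x) = Submodule.Quotient.mk x := by
    intro i
    induction i with
    | zero => rw [pow_zero, map_one]; rfl
    | succ i ih => rw [pow_succ', map_mul, Module.End.mul_apply, ih, hv]
  have hz : ∀ h : Subgroup.zpowers g, rep K L p (h : L ≃ₐ[K] L) (Submodule.Quotient.mk x) =
      Submodule.Quotient.mk x := by
    rintro ⟨h, hh⟩
    obtain ⟨i, rfl⟩ := (Submonoid.mem_powers_iff h g).mp (mem_powers_iff_mem_zpowers.mpr hh)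
    exact hpow i
  have hC : Subgroup.zpowers g ≠ ⊥ := fun h => hg (Subgroup.zpowers_eq_bot.mp h)
  -- the norm kills
  have h1 : (∑ h : Subgroup.zpowers g, tr (h : L ≃ₐ[K] L) x) ∈ I K L p := by
    rw [mem_I]
    have hb := bd_nm p _ (hF _ hC)
    intro n
    obtain ⟨M, hM⟩ := hb n
    refine ⟨M, fun u hu => ?_⟩
    have h2 : op (∑ h : Subgroup.zpowers g, tr (h : L ≃ₐ[K] L) x) u =
        nm (Subgroup.zpowers g) (op x u) := by
      have h3 : ∀ s : Finset (Subgroup.zpowers g),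
          op (∑ h ∈ s, tr (h : L ≃ₐ[K] L) x) u = ∏ h ∈ s, act (h : L ≃ₐ[K] L) (op x u) := by
        intro s
        induction s using Finset.induction_on with
        | empty =>
          rw [Finset.sum_empty, Finset.prod_empty]
          unfold op
          simp
        | insert a s ha ih => rw [Finset.sum_insert ha, Finset.prod_insert ha, op_add, ih, op_tr]
      exact h3 _
    rw [h2]
    exact hM _ (op_Cl x hu)
  have h2 : (Fintype.card (Subgroup.zpowers g) : ℤ) •
      (Submodule.Quotient.mk x : ((L ≃ₐ[K] L) → ℤ) ⧸ I K L p) = 0 := by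
    rw [← (Submodule.Quotient.mk_eq_zero _).mpr h1, ← Submodule.mkQ_apply, ← Submodule.mkQ_apply,
      map_sum]
    rw [Finset.sum_congr rfl fun (h : Subgroup.zpowers g) _ =>
      (show (I K L p).mkQ (tr (h : L ≃ₐ[K] L) x) = (I K L p).mkQ x from hz h),
      Finset.sum_const, Finset.card_univ, natCast_zsmul]
  exact htf _ _ (by exact_mod_cast Fintype.card_ne_zero) h2

end Pool.Agent.R362.LM
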