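import Mathlib
import Pool.Agent.R362.LM.Fpf
import Pool.Agent.R362.LM.Conj
import Pool.Agent.Y758.LC.DSC

/-!
# Minimal counterexamples to Leopoldt's conjecture
-/

set_option autoImplicit false
set_option linter.unusedSectionVars false

namespace Pool.Agent.R362.LM

open Finset NumberField NumberField.Units Pool.Agent.H637R2.Leo Pool.Agent.Y944.LC

section

variable {K L : Type} [Field K] [NumberField K] [Field L] [NumberField L] [Algebra K L]

lemma fixed_ne_top (C : Subgroup (L ≃ₐ[K] L)) (hC : C ≠ ⊥) :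
    IntermediateField.fixedField C ≠ ⊤ := by
  intro h
  apply hC
  rw [← IntermediateField.fixingSubgroup_fixedField C, h]
  exact IntermediateField.fixingSubgroup_top

end

section

variable {F L : Type} [Field F] [NumberField F] [Field L] [NumberField L]

/-- Leopoldt's conjecture for a subfield of the same unit rank. -/
theorem leo_of_rank (f : F →+* L) (p : ℕ) [Fact p.Prime] (hF : Leopoldt F p)
    (hr : rank L ≤ rank F) (hr' : rank F ≤ rank L) : Leopoldt L p := by
  classical
  have hrr : rank F = rank L := le_antisymm hr' hr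
  let e : Fin (rank F) ≃ Fin (rank L) := finCongr hrr
  let A : Matrix (Fin (rank L)) (Fin (rank L)) ℤ :=
    fun i j => ex L (um f (fundSystem F (e.symm j))) i
  have hA : ∀ v : (𝓞 F)ˣ, ex L (um f v) = A.mulVec (fun j => ex F v (e.symm j)) := by
    intro v
    funext i
    rw [ex_map]
    unfold Matrix.mulVec dotProduct
    exact Fintype.sum_equiv e _ _ fun j => by
      show _ = ex L (um f (fundSystem F (e.symm (e j)))) i * ex F v (e.symm (e j))
      rw [e.symm_apply_apply, mul_comm]
  have hfund : ∀ v : Fin (rank L) → ℤ, ∀ j, ex F (∏ i, fundSystem F i ^ v (e i)) (e.symm j) = v j := by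
    intro v j
    rw [ex_uniq F _ 1 (one_mem _) (fun i => v (e i)) (by rw [one_mul])]
    show v (e (e.symm j)) = v j
    rw [e.apply_symm_apply]
  have hdet : A.det ≠ 0 := by
    intro h0
    obtain ⟨v, hv, hv0⟩ := Matrix.exists_mulVec_eq_zero_iff.mpr h0
    apply hv
    set y : (𝓞 F)ˣ := ∏ i, fundSystem F i ^ v (e i) with hy
    have h2 : um f y ∈ torsion L := by
      rw [← ex_eq_zero_iff]
      intro j
      rw [hA, show (fun j => ex F y (e.symm j)) = v from funext (hfund v), hv0]
      rfl
    have h3 : y ∈ torsion F := by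
      rw [NumberField.Units.torsion, CommGroup.mem_torsion] at h2 ⊢
      exact (Function.Injective.isOfFinOrder_iff (um_inj f)).mp h2
    have h4 := (ex_eq_zero_iff F _).mpr h3
    funext j
    rw [← hfund v j]
    exact h4 _
  have ht : (torsionOrder L : ℤ) ≠ 0 := by exact_mod_cast torsionOrder_ne_zero L
  rw [leo_iff_bd]
  refine Bd.of_pow (m := A.det * torsionOrder L) Fact.out (mul_ne_zero hdet ht) fun n => ?_
  obtain ⟨M, hM⟩ := (leo_iff p).mp hF n
  refine ⟨M, fun u hu => ?_⟩
  set v : Fin (rank L) → ℤ := A.adjugate.mulVec (ex L u) with hv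
  set y : (𝓞 F)ˣ := ∏ i, fundSystem F i ^ v (e i) with hy
  have h1 : ex L (um f y) = A.det • ex L u := by
    rw [hA, show (fun j => ex F y (e.symm j)) = v from funext (hfund v), hv, Matrix.mulVec_mulVec,
      Matrix.mul_adjugate, Matrix.smul_mulVec, Matrix.one_mulVec]
  have h2 : ∀ j, ex L (um f y) j = ex L (u ^ A.det) j := by
    intro j
    rw [h1, ex_zpow]
    rfl
  obtain ⟨ζ, hζ, hζ2⟩ := pow_torsionOrder_of_ex L _ _ h2
  have h3 : um f (y ^ torsionOrder L) = u ^ (A.det * torsionOrder L) := by
    rw [map_pow, hζ2, mul_pow, torsion_pow L ζ hζ, one_mul, zpow_mul, zpow_natCast]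
  show u ^ (A.det * torsionOrder L) ∈ Pw L p n
  rw [← h3]
  refine um_Pw f (hM (Cl_of_um f (Fact.out : p.Prime).ne_zero ?_))
  rw [h3]
  exact zpow_mem hu _

end

section

variable {L : Type} [Field L] [NumberField L]

/-- complex conjugations -/
lemma exists_conj [IsGalois ℚ L] (w0 : InfinitePlace L) (hw : ¬ w0.IsReal) :
    ∃ c : L ≃ₐ[ℚ] L, c ≠ 1 ∧ c * c = 1 ∧ (∀ x : L, w0 (c x) = w0 x) ∧
      ∀ x, w0.embedding (c x) = star (w0.embedding x) := by
  have h1 : InfinitePlace.IsRamified ℚ (InfinitePlace.mk w0.embedding) := by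
    rw [InfinitePlace.mk_embedding, InfinitePlace.isRamified_iff]
    exact ⟨InfinitePlace.not_isReal_iff_isComplex.mp hw, IsTotallyReal.isReal _⟩
  obtain ⟨c, hc⟩ := InfinitePlace.exists_isConj_of_isRamified h1
  refine ⟨c, ?_, ?_, ?_, hc.eq⟩
  · rintro rfl
    apply hw
    rw [InfinitePlace.isReal_iff]
    exact ComplexEmbedding.isConj_one_iff.mp hc
  · ext x
    apply w0.embedding.injective
    show w0.embedding (c (c x)) = w0.embedding x
    rw [hc.eq, hc.eq, star_star]
  · intro x
    rw [← InfinitePlace.norm_embedding_eq, ← InfinitePlace.norm_embedding_eq, hc.eq, norm_star]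

/-- a real embedding of the fixed field -/
lemma real_fixed (φ : L →+* ℂ) (c : L ≃ₐ[ℚ] L) (hc : ∀ x, φ (c x) = star (φ x)) :
    Nonempty (IntermediateField.fixedField (Subgroup.zpowers c) →+* ℝ) := by
  have h1 : ComplexEmbedding.IsReal
      (φ.comp (algebraMap (IntermediateField.fixedField (Subgroup.zpowers c)) L)) := by
    rw [ComplexEmbedding.isReal_iff]
    ext x
    have h2 : c (x : L) = x := (IntermediateField.mem_fixedField_iff _ _).mp x.2 c
      (Subgroup.mem_zpowers c)
    show star (φ (x : L)) = φ (x : L)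
    rw [← hc, h2]
  exact ⟨h1.embedding⟩

end

/-- Leopoldt's conjecture descends. -/
lemma dsc {E E' : Type} [Field E] [NumberField E] [Field E'] [NumberField E'] (f : E →+* E')
    (p : ℕ) [Fact p.Prime] (h : Leopoldt E' p) : Leopoldt E p :=
  Pool.Agent.Y758.LC.dsc E E' f p h

/-- A counterexample with a real embedding. -/
theorem exists_real (p : ℕ) [Fact p.Prime] (E : Type) [Field E] [NumberField E]
    (hE : ¬ Leopoldt E p) :
    ∃ (F : Type) (_ : Field F) (_ : NumberField F), ¬ Leopoldt F p ∧ Nonempty (F →+* ℝ) := by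
  let N : IntermediateField ℚ (AlgebraicClosure ℚ) :=
    IntermediateField.normalClosure ℚ E (AlgebraicClosure ℚ)
  let f : E →ₐ[ℚ] AlgebraicClosure ℚ := IsAlgClosed.lift
  have hle : f.fieldRange ≤ N := AlgHom.fieldRange_le_normalClosure f
  have hfd : FiniteDimensional ℚ N := normalClosure.is_finiteDimensional ℚ E (AlgebraicClosure ℚ)
  have hnf : NumberField N := NumberField.mk
  have hnA : Normal ℚ (AlgebraicClosure ℚ) := by
    rw [normal_iff]
    intro x
    refine ⟨?_, IsAlgClosed.splits _⟩
    have h := (AlgebraicClosure.isAlgebraic ℚ).isAlgebraic x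
    have h2 := h.isIntegral
    convert h2
    exact Subsingleton.elim _ _
  have hnm : Normal ℚ N := normalClosure.normal ℚ E (AlgebraicClosure ℚ)
  have hg : IsGalois ℚ N := IsGalois.mk
  let j : E →+* N := ((IntermediateField.inclusion hle).comp f.rangeRestrict : E →ₐ[ℚ] N)
  have hN : ¬ Leopoldt N p := fun h => hE (dsc j p h)
  by_cases hreal : ∀ w : InfinitePlace N, w.IsReal
  · obtain ⟨w⟩ : Nonempty (InfinitePlace N) := inferInstance
    exact ⟨N, inferInstance, hnf, hN, ⟨InfinitePlace.embedding_of_isReal (hreal w)⟩⟩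
  · push Not at hreal
    obtain ⟨w0, hw⟩ := hreal
    obtain ⟨c, hc1, hcc, hcw, hφ⟩ := exists_conj w0 hw
    refine ⟨IntermediateField.fixedField (Subgroup.zpowers c), inferInstance, inferInstance, ?_,
      real_fixed w0.embedding c hφ⟩
    exact fun h => hN (leo_of_conj p w0 c hcc hcw h)

/-- minimal subfields -/
theorem exists_min (p : ℕ) [Fact p.Prime] (n : ℕ) :
    ∀ (F : Type) [Field F] [NumberField F], Module.finrank ℚ F = n → ¬ Leopoldt F p →
      Nonempty (F →+* ℝ) →
      ∃ (L : Type) (_ : Field L) (_ : NumberField L), (¬ Leopoldt L p ∧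
        ∀ F' : IntermediateField ℚ L, F' ≠ ⊤ → Leopoldt F' p) ∧ Nonempty (L →+* ℝ) := by
  induction n using Nat.strong_induction_on with
  | _ n ih =>
    intro F _ _ hn hF hreal
    by_cases hmin : ∀ F' : IntermediateField ℚ F, F' ≠ ⊤ → Leopoldt F' p
    · exact ⟨F, inferInstance, inferInstance, ⟨hF, hmin⟩, hreal⟩
    · push Not at hmin
      obtain ⟨F', hne, hF'⟩ := hmin
      refine ih (Module.finrank ℚ F') ?_ F' rfl hF' ⟨hreal.some.comp (algebraMap F' F)⟩
      rw [← hn]
      by_contra hcon
      push Not at hcon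
      apply hne
      refine IntermediateField.eq_of_le_of_finrank_le le_top ?_
      rw [IntermediateField.finrank_top']
      exact hcon

end Pool.Agent.R362.LM
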