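import Mathlib
import Pool.Agent.R362.LM.Main

/-!
# Quadratic extensions in which at most one infinite place splits
-/

set_option autoImplicit false
set_option linter.unusedSectionVars false

namespace Pool.Agent.R362.LM

open Finset NumberField NumberField.Units Pool.Agent.H637R2.Leo Pool.Agent.Y944.LC

section

variable {L : Type} [Field L] [NumberField L]

lemma dvd_of_pow_sub (p : ℕ) [Fact p.Prime] (z : (𝓞 L)ˣ) (hz : z ∈ Cl L p 1) (k : ℕ)
    (hk : ¬ p ∣ k) (M : ℕ) (h : z ^ k ∈ Cl L p M) : z ∈ Cl L p M := by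
  have hp : p.Prime := Fact.out
  rw [mem_Cl] at hz h ⊢
  rw [pow_one] at hz
  have h1 : (((z : 𝓞 L)) - 1) * ∑ i ∈ range k, (z : 𝓞 L) ^ i = ((z ^ k : (𝓞 L)ˣ) : 𝓞 L) - 1 := by
    rw [Units.val_pow_eq_pow_val, mul_geom_sum]
  rw [← h1] at h
  have h2 : (p : 𝓞 L) ∣ (∑ i ∈ range k, (z : 𝓞 L) ^ i) - (k : 𝓞 L) := by
    have h3 : (∑ i ∈ range k, (z : 𝓞 L) ^ i) - (k : 𝓞 L) =
        ∑ i ∈ range k, ((z : 𝓞 L) ^ i - 1) := by
      rw [Finset.sum_sub_distrib]
      simp
    rw [h3]
    refine Finset.dvd_sum fun i _ => hz.trans ?_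
    have h4 := sub_dvd_pow_sub_pow (z : 𝓞 L) 1 i
    rwa [one_pow] at h4
  have h5 : IsCoprime ((p : 𝓞 L) ^ M) (∑ i ∈ range k, (z : 𝓞 L) ^ i) := by
    refine IsCoprime.pow_left ?_
    obtain ⟨v, hv⟩ := h2
    have h6 : IsCoprime (p : ℤ) (k : ℤ) :=
      Nat.isCoprime_iff_coprime.mpr ((Nat.Prime.coprime_iff_not_dvd hp).mpr hk)
    obtain ⟨a, b, hab⟩ := h6
    have h7 : (a : 𝓞 L) * (p : 𝓞 L) + (b : 𝓞 L) * (k : 𝓞 L) = 1 := by
      have h8 := congrArg (fun n : ℤ => (n : 𝓞 L)) hab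
      push_cast at h8
      exact h8
    refine ⟨(a : 𝓞 L) - (b : 𝓞 L) * v, (b : 𝓞 L), ?_⟩
    linear_combination h7 + (b : 𝓞 L) * hv
  exact h5.dvd_of_dvd_mul_right h

/-- one unit of infinite order -/
lemma one_unit (p : ℕ) [Fact p.Prime] (ε : (𝓞 L)ˣ) (hε : ε ∉ torsion L) (n : ℕ) :
    ∃ M, ∀ k : ℤ, ε ^ k ∈ Cl L p M → (p : ℤ) ^ n ∣ k := by
  have hp : p.Prime := Fact.out
  obtain ⟨t0, ht0, hw⟩ := exists_t0 L p hp
  obtain ⟨s, hs⟩ := hw ε
  rw [Ideal.mem_span_singleton] at hs
  -- a power congruent to one modulo `p`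
  obtain ⟨T, hT, hT1⟩ : ∃ T : ℕ, 0 < T ∧ ε ^ T ∈ Cl L p 1 := by
    have h1 : ∃ t : ℕ, 0 < t ∧ ∀ w : (𝓞 L)ˣ, ((w : 𝓞 L)) ^ t - 1 ∈ Ideal.span {((p : ℕ) : 𝓞 L)} := by
      have hne : Ideal.span {((p : ℕ) : 𝓞 L)} ≠ ⊥ := by
        rw [Ne, Ideal.span_singleton_eq_bot]
        exact_mod_cast hp.ne_zero
      have : Finite (𝓞 L ⧸ Ideal.span {((p : ℕ) : 𝓞 L)}) :=
        Ideal.finiteQuotientOfFreeOfNeBot _ hne
      refine ⟨Nat.card (𝓞 L ⧸ Ideal.span {((p : ℕ) : 𝓞 L)})ˣ, Nat.card_pos, fun w => ?_⟩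
      rw [← Ideal.Quotient.eq_zero_iff_mem, map_sub, map_pow, map_one, sub_eq_zero]
      have h := pow_card_eq_one' (G := (𝓞 L ⧸ Ideal.span {((p : ℕ) : 𝓞 L)})ˣ)
        (x := Units.map (Ideal.Quotient.mk (Ideal.span {((p : ℕ) : 𝓞 L)})).toMonoidHom w)
      exact congrArg Units.val h
    obtain ⟨t, ht, h2⟩ := h1
    refine ⟨t, ht, ?_⟩
    rw [mem_Cl, pow_one, Units.val_pow_eq_pow_val, ← Ideal.mem_span_singleton]
    exact h2 ε
  by_contra hcon
  push Not at hcon
  have key : ∀ M, (ε ^ T) ^ p ^ n ∈ Cl L p M := by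
    intro M
    obtain ⟨k, hk, hkn⟩ := hcon M
    have hk0 : k.natAbs ≠ 0 := by
      intro h0
      rw [Int.natAbs_eq_zero] at h0
      rw [h0] at hkn
      exact hkn (dvd_zero _)
    obtain ⟨j, k', hk', hkk⟩ := Nat.exists_eq_pow_mul_and_not_dvd hk0 p hp.ne_one
    have hj : j < n := by
      by_contra hjn
      push Not at hjn
      apply hkn
      rw [← Int.natAbs_dvd_natAbs, Int.natAbs_pow, Int.natAbs_natCast, hkk]
      exact (pow_dvd_pow p hjn).mul_right k'
    have h1 : ε ^ k.natAbs ∈ Cl L p M := by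
      rcases Int.natAbs_eq k with h | h
      · rw [h] at hk
        exact_mod_cast hk
      · rw [h, zpow_neg] at hk
        have := inv_mem hk
        rw [inv_inv] at this
        exact_mod_cast this
    have h2 : ((ε ^ T) ^ p ^ j) ^ k' ∈ Cl L p M := by
      have h3 : ((ε ^ T) ^ p ^ j) ^ k' = (ε ^ k.natAbs) ^ T := by
        rw [hkk, ← pow_mul, ← pow_mul, ← pow_mul]
        congr 1
        ring
      rw [h3]
      exact pow_mem h1 T
    have h3 := dvd_of_pow_sub p _ (pow_mem hT1 (p ^ j)) k' hk' M h2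
    have h4 : (ε ^ T) ^ p ^ n = ((ε ^ T) ^ p ^ j) ^ p ^ (n - j) := by
      rw [← pow_mul (ε ^ T), ← pow_add, Nat.add_sub_cancel' hj.le]
    rw [h4]
    exact pow_mem h3 _
  have h1 : (((ε ^ T) ^ p ^ n : (𝓞 L)ˣ) : 𝓞 L) - 1 = 0 := by
    have hI : Ideal.span {((p : ℕ) : 𝓞 L)} ≠ ⊤ := by
      rw [Ne, Ideal.span_singleton_eq_top]
      intro hu
      have h3 : Module.finrank ℚ L ≠ 0 := Module.finrank_pos.ne'
      have h4 : (Algebra.norm ℤ ((p : ℕ) : 𝓞 L)) = (p : ℤ) ^ Module.finrank ℤ (𝓞 L) := by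
        have := Algebra.norm_algebraMap_of_basis (RingOfIntegers.basis L) (p : ℤ)
        rw [← Module.finrank_eq_card_basis (RingOfIntegers.basis L)] at this
        simpa using this
      have h5 : IsUnit (Algebra.norm ℤ ((p : ℕ) : 𝓞 L)) := hu.map _
      rw [h4, RingOfIntegers.rank] at h5
      have h6 := isUnit_pow_iff h3 |>.mp h5
      rw [Int.isUnit_iff_natAbs_eq, Int.natAbs_natCast] at h6
      exact hp.one_lt.ne' h6
    have h2 := Ideal.iInf_pow_eq_bot_of_isDomain _ hI
    rw [← Ideal.mem_bot, ← h2, Ideal.mem_iInf]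
    intro M
    rw [Ideal.span_singleton_pow, Ideal.mem_span_singleton]
    exact mem_Cl.mp (key M)
  apply hε
  rw [NumberField.Units.torsion, CommGroup.mem_torsion, isOfFinOrder_iff_pow_eq_one]
  refine ⟨T * p ^ n, Nat.mul_pos hT (pow_pos hp.pos n), ?_⟩
  rw [pow_mul]
  exact Units.ext (sub_eq_zero.mp h1)

end

section

variable {K L : Type} [Field K] [NumberField K] [Field L] [NumberField L] [Algebra K L]

/-- relative units of rank at most one -/
theorem leo_of_rel (p : ℕ) [Fact p.Prime] (F : Type) [Field F] [NumberField F] (f : F →+* L)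
    (c : L ≃ₐ[K] L) (hc : c * c = 1) (hcf : ∀ x, c (f x) = f x)
    (hF : Leopoldt (IntermediateField.fixedField (Subgroup.zpowers c)) p)
    (hr : rank L ≤ rank F + 1) : Leopoldt L p := by
  classical
  have hN := bd_invol p c hc hF
  set δ : (𝓞 L)ˣ → (𝓞 L)ˣ := fun u => u * (act c u)⁻¹ with hδ
  suffices h : Bd p δ by
    rw [leo_iff_bd]
    refine Bd.of_pow (m := 2) Fact.out two_ne_zero fun n => ?_
    obtain ⟨M, hM⟩ := (hN.mul h) n
    refine ⟨M, fun u hu => ?_⟩
    have h1 : u ^ (2 : ℤ) = u * act c u * δ u := by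
      rw [hδ, zpow_two]
      show u * u = u * act c u * (u * (act c u)⁻¹)
      rw [mul_assoc, mul_comm u (act c u)⁻¹, mul_inv_cancel_left]
    show u ^ (2 : ℤ) ∈ Pw L p n
    rw [h1]
    exact hM u hu
  have hanti : ∀ u, act c (δ u) = (δ u)⁻¹ := by
    intro u
    show act c (u * (act c u)⁻¹) = (u * (act c u)⁻¹)⁻¹
    rw [map_mul, map_inv, ← act_mul, hc, act_one, mul_inv, inv_inv, mul_comm]
  by_cases hall : ∀ u, δ u ∈ torsion L
  · exact fun n => ⟨0, fun u _ => tors_le_Pw (hall u)⟩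
  push Not at hall
  obtain ⟨u0, hu0⟩ := hall
  set ε := δ u0 with hε
  -- parallel
  have hpar : ∀ u, ∃ a b : ℤ, a ≠ 0 ∧ ∀ j, a * ex L (δ u) j = b * ex L ε j := by
    intro u
    set v : Option (Option (Fin (rank F))) → Additive (𝓞 L)ˣ := fun o =>
      match o with
      | none => Additive.ofMul (δ u)
      | some none => Additive.ofMul ε
      | some (some i) => Additive.ofMul (um f (fundSystem F i)) with hv
    have h1 : ¬ LinearIndependent ℤ v := by
      intro h
      have h2 := h.fintype_card_le_finrank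
      rw [Units.finrank_eq, Fintype.card_option, Fintype.card_option, Fintype.card_fin] at h2
      omega
    rw [Fintype.not_linearIndependent_iff] at h1
    obtain ⟨g, hg, i0, hi0⟩ := h1
    rw [Fintype.sum_option, Fintype.sum_option] at hg
    have h4 := congrArg Additive.toMul hg
    rw [toMul_add, toMul_add, toMul_sum, toMul_zero] at h4
    have h5 : δ u ^ g none * (ε ^ g (some none) *
        ∏ i, um f (fundSystem F i) ^ g (some (some i))) = 1 := h4
    set y : (𝓞 F)ˣ := ∏ i, fundSystem F i ^ g (some (some i)) with hy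
    have h6 : ∏ i, um f (fundSystem F i) ^ g (some (some i)) = um f y := by
      rw [hy, map_prod]
      exact Finset.prod_congr rfl fun i _ => (map_zpow _ _ _).symm
    rw [h6] at h5
    have hcy : act c (um f y) = um f y := u_ext (hcf _)
    have h7 := congrArg (act c) h5
    rw [map_mul, map_mul, map_zpow, map_zpow, hanti, hε, hanti, hcy, map_one] at h7
    have h8 : um f y * um f y = 1 := by
      have h9 := congrArg₂ (· * ·) h5 h7
      simp only [mul_one] at h9
      rw [← h9, hε]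
      simp only [inv_zpow]
      rw [show δ u ^ g none * (δ u0 ^ g (some none) * um f y) *
        ((δ u ^ g none)⁻¹ * ((δ u0 ^ g (some none))⁻¹ * um f y)) =
        (δ u ^ g none * (δ u ^ g none)⁻¹) * (δ u0 ^ g (some none) * (δ u0 ^ g (some none))⁻¹) *
          (um f y * um f y) by
        simp only [mul_assoc, mul_comm, mul_left_comm], mul_inv_cancel, mul_inv_cancel, one_mul,
        one_mul]
    have hyt : y ∈ torsion F := by
      rw [NumberField.Units.torsion, CommGroup.mem_torsion, isOfFinOrder_iff_pow_eq_one]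
      refine ⟨2, two_pos, um_inj f ?_⟩
      rw [map_pow, pow_two, h8, map_one]
    have hgy : ∀ i, g (some (some i)) = 0 := by
      intro i
      have h9 := (ex_eq_zero_iff F y).mpr hyt i
      rwa [hy, ex_uniq F _ 1 (one_mem _) (fun i => g (some (some i))) (by rw [one_mul])] at h9
    have hyu : um f y ∈ torsion L := tors_map _ hyt
    have h10 : ∀ j, g none * ex L (δ u) j + g (some none) * ex L ε j = 0 := by
      intro j
      have h11 : ex L (δ u ^ g none * (ε ^ g (some none) * um f y)) j = 0 := by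
        rw [h5, ex_one]
      rw [ex_mul, ex_mul, ex_zpow, ex_zpow, (ex_eq_zero_iff L _).mpr hyu j, add_zero] at h11
      exact h11
    refine ⟨g none, - g (some none), ?_, fun j => by linear_combination h10 j⟩
    intro h0
    have h11 : g (some none) ≠ 0 := by
      intro h12
      apply hi0
      rcases i0 with _ | _ | i
      · exact h0
      · exact h12
      · exact hgy i
    apply hu0
    rw [← ex_eq_zero_iff]
    intro j
    have h12 := h10 j
    rw [h0, zero_mul, zero_add] at h12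
    exact (mul_eq_zero.mp h12).resolve_left h11
  obtain ⟨j0, hj0⟩ : ∃ j0, ex L ε j0 ≠ 0 := by
    by_contra hcon
    push Not at hcon
    exact hu0 ((ex_eq_zero_iff L ε).mp hcon)
  have hunif : ∀ u j, ex L ε j0 * ex L (δ u) j = ex L (δ u) j0 * ex L ε j := by
    intro u j
    obtain ⟨a, b, ha, hab⟩ := hpar u
    have h1 := hab j
    have h2 := hab j0
    have h3 : a * (ex L ε j0 * ex L (δ u) j - ex L (δ u) j0 * ex L ε j) = 0 := by
      linear_combination ex L ε j0 * h1 - ex L ε j * h2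
    rcases mul_eq_zero.mp h3 with h4 | h4
    · exact absurd h4 ha
    · exact sub_eq_zero.mp h4
  have ht : (torsionOrder L : ℤ) ≠ 0 := by exact_mod_cast torsionOrder_ne_zero L
  refine Bd.of_pow (m := ex L ε j0 * torsionOrder L) Fact.out (mul_ne_zero hj0 ht) fun n => ?_
  obtain ⟨M, hM⟩ := one_unit p ε hu0 n
  refine ⟨M, fun u hu => ?_⟩
  obtain ⟨ζ, hζ, hζ2⟩ := pow_torsionOrder_of_ex L (δ u ^ ex L ε j0) (ε ^ ex L (δ u) j0)
    (fun j => by rw [ex_zpow, ex_zpow, hunif])
  have h1 : δ u ^ (ex L ε j0 * torsionOrder L) = ε ^ (ex L (δ u) j0 * torsionOrder L) := by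
    rw [zpow_mul, hζ2, mul_zpow, zpow_natCast, torsion_pow L ζ hζ, one_mul, ← zpow_mul]
  have h2 : δ u ∈ Cl L p M := mul_mem hu (inv_mem (um_Cl _ hu))
  have h3 := hM (ex L (δ u) j0 * torsionOrder L) (by rw [← h1]; exact zpow_mem h2 _)
  show δ u ^ (ex L ε j0 * torsionOrder L) ∈ Pw L p n
  rw [h1]
  intro j
  rw [ex_zpow]
  exact Dvd.dvd.mul_right h3 _

end

/-- Quadratic extensions in which at most one infinite place splits. -/
theorem leo_of_quadratic (p : ℕ) [Fact p.Prime] (F L : Type) [Field F] [NumberField F] [Field L]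
    [NumberField L] [Algebra F L] (h2 : Module.finrank F L = 2) (hF : Leopoldt F p)
    (hr : rank L ≤ rank F + 1) : Leopoldt L p := by
  classical
  have : Algebra.IsQuadraticExtension F L := ⟨h2⟩
  have hg : IsGalois F L := inferInstance
  have hcard : Nat.card (L ≃ₐ[F] L) = 2 := by rw [IsGalois.card_aut_eq_finrank, h2]
  have hnt : Nontrivial (L ≃ₐ[F] L) := by
    rw [← Finite.one_lt_card_iff_nontrivial, hcard]
    norm_num
  obtain ⟨c, hc⟩ := exists_ne (1 : L ≃ₐ[F] L)
  have hcc : c * c = 1 := by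
    have h := pow_card_eq_one' (G := L ≃ₐ[F] L) (x := c)
    rwa [hcard, pow_two] at h
  have htop : Subgroup.zpowers c = ⊤ := by
    refine Subgroup.eq_top_of_card_eq _ ?_
    rw [hcard]
    have h1 : Nat.card (Subgroup.zpowers c) ∣ 2 := by
      rw [← hcard]
      exact Subgroup.card_subgroup_dvd_card _
    rcases (Nat.dvd_prime Nat.prime_two).mp h1 with h3 | h3
    · exact absurd (Subgroup.zpowers_eq_bot.mp (Subgroup.eq_bot_of_card_eq _ h3)) hc
    · exact h3
  have hbot : IntermediateField.fixedField (Subgroup.zpowers c) = ⊥ := by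
    rw [htop]
    exact IsGalois.tfae.out 0 1 |>.mp hg
  refine leo_of_rel p F (algebraMap F L) c hcc (fun x => c.commutes x) ?_ hr
  rw [hbot]
  exact dsc ((IntermediateField.botEquiv F L : (⊥ : IntermediateField F L) →ₐ[F] F) :
    (⊥ : IntermediateField F L) →+* F) p hF

end Pool.Agent.R362.LM
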